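import Pool.Agent.V1172.SK.Solve

/-!
# MP_8db26a_an, Q1

Every superattracting skew germ `(z^d, w^c + z h(z,w))` is analytically conjugate to an analytic
normal form.
-/

set_option autoImplicit false

open Set Filter Topology Metric Pool.Agent.V1172.SK

namespace Pool.Agent.Results.MP_8db26a_an.AnalyticNormalForm

/-- `f` is holomorphic near `x`. -/
def HoloAt {E F : Type*} [NormedAddCommGroup E] [NormedSpace ℂ E] [NormedAddCommGroup F]
    [NormedSpace ℂ F] (f : E → F) (x : E) : Prop :=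
  ∀ᶠ y in 𝓝 x, DifferentiableAt ℂ f y

/-- The germ `(z, w) ↦ (z^d, w^c + z h(z,w))`. -/
def skewGerm (d c : ℕ) (h : ℂ × ℂ → ℂ) : ℂ × ℂ → ℂ × ℂ :=
  fun q => (q.1 ^ d, q.2 ^ c + q.1 * h q)

/-- The map `(z, w) ↦ (z^d, w^c + ∑_{j < c} h_j(z) w^j)`. -/
def normalForm (d c : ℕ) (b : ℕ → ℂ → ℂ) : ℂ × ℂ → ℂ × ℂ :=
  fun q => (q.1 ^ d, q.2 ^ c + ∑ j ∈ Finset.range c, b j q.1 * q.2 ^ j)

/-- `f` and `g` are analytically conjugate near `0` in `ℂ²`: there is a germ of biholomorphism `Φ`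
of `(ℂ², 0)`, with inverse germ `Ψ`, such that `Φ ∘ f = g ∘ Φ` near `0`. -/
def AnalyticallyConjugate (f g : ℂ × ℂ → ℂ × ℂ) : Prop :=
  ∃ Φ Ψ : ℂ × ℂ → ℂ × ℂ, HoloAt Φ 0 ∧ HoloAt Ψ 0 ∧ Φ 0 = 0 ∧ Ψ 0 = 0 ∧
    (∀ᶠ q in 𝓝 0, Ψ (Φ q) = q) ∧ (∀ᶠ q in 𝓝 0, Φ (Ψ q) = q) ∧
    ∀ᶠ q in 𝓝 0, Φ (f q) = g (Φ q)

/-- The coordinate change. -/
noncomputable def chg (φ : ℂ × ℂ → ℂ) : ℂ × ℂ → ℂ × ℂ := fun q => (q.1, q.2 + q.1 * φ q)

theorem chg_inverse (φ : ℂ × ℂ → ℂ) {D : Set (ℂ × ℂ)} (hD : IsOpen D) (h0 : (0 : ℂ × ℂ) ∈ D)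
    (hφ : DifferentiableOn ℂ φ D) :
    ∃ Ψ : ℂ × ℂ → ℂ × ℂ, HoloAt Ψ 0 ∧ Ψ 0 = 0 ∧ (∀ᶠ q in 𝓝 0, Ψ (chg φ q) = q) ∧
      ∀ᶠ q in 𝓝 0, chg φ (Ψ q) = q := by
  have hΦd : DifferentiableOn ℂ (chg φ) D := by
    intro q hq
    have h1 : DifferentiableAt ℂ φ q := (hφ q hq).differentiableAt (hD.mem_nhds hq)
    have h2 : DifferentiableAt ℂ (chg φ) q := by
      unfold chg
      fun_prop
    exact h2.differentiableWithinAt
  have hc : ContDiffAt ℂ 1 (chg φ) 0 :=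
    (Pool.Agent.Helper540.contDiffOn_of_differentiableOn hD hΦd 1).contDiffAt (hD.mem_nhds h0)
  have hφ0 : DifferentiableAt ℂ φ 0 := (hφ 0 h0).differentiableAt (hD.mem_nhds h0)
  let L : (ℂ × ℂ) →L[ℂ] (ℂ × ℂ) := (ContinuousLinearMap.fst ℂ ℂ ℂ).prod
    (ContinuousLinearMap.snd ℂ ℂ ℂ + (φ 0) • ContinuousLinearMap.fst ℂ ℂ ℂ)
  let L' : (ℂ × ℂ) →L[ℂ] (ℂ × ℂ) := (ContinuousLinearMap.fst ℂ ℂ ℂ).prod
    (ContinuousLinearMap.snd ℂ ℂ ℂ - (φ 0) • ContinuousLinearMap.fst ℂ ℂ ℂ)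
  have hL1 : Function.LeftInverse L' L := by
    rintro ⟨a, b⟩
    simp [L, L']
  have hL2 : Function.RightInverse L' L := by
    rintro ⟨a, b⟩
    simp [L, L']
  let e : (ℂ × ℂ) ≃L[ℂ] (ℂ × ℂ) := ContinuousLinearEquiv.equivOfInverse L L' hL1 hL2
  have hder : HasFDerivAt (chg φ) (e : (ℂ × ℂ) →L[ℂ] (ℂ × ℂ)) 0 := by
    have h1 : HasFDerivAt (fun q : ℂ × ℂ => q.1) (ContinuousLinearMap.fst ℂ ℂ ℂ) 0 :=
      hasFDerivAt_fst
    have h2 : HasFDerivAt (fun q : ℂ × ℂ => q.2) (ContinuousLinearMap.snd ℂ ℂ ℂ) 0 :=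
      hasFDerivAt_snd
    have h3 := h2.add (h1.mul hφ0.hasFDerivAt)
    have h4 := h1.prodMk h3
    refine h4.congr_fderiv ?_
    ext <;> simp [e, L, ContinuousLinearEquiv.equivOfInverse]
  have hchg0 : chg φ 0 = 0 := by simp [chg]
  have hne : (1 : WithTop ℕ∞) ≠ 0 := one_ne_zero
  refine ⟨hc.localInverse hder hne, ?_, ?_, ?_, ?_⟩
  · have h1 := hc.to_localInverse hder hne
    rw [hchg0] at h1
    have h2 := h1.eventually (by simp)
    filter_upwards [h2] with y hy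
    exact hy.differentiableAt one_ne_zero
  · have := hc.localInverse_apply_image hder hne
    rwa [hchg0] at this
  · exact (hc.hasStrictFDerivAt' hder hne).eventually_left_inverse
  · have := (hc.hasStrictFDerivAt' hder hne).eventually_right_inverse
    rwa [hchg0] at this

/-- **Q1: no such germ exists.** For all `d > c ≥ 2`, every germ `(z^d, w^c + z h(z,w))` with `h`
holomorphic near `0` and `h(0,0) = 0` is conjugate, by a germ of biholomorphism of `(ℂ², 0)`, to a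
normal form `(z^d, w^c + h_{c-1}(z) w^{c-1} + … + h_0(z))` whose coefficients are holomorphic near
`0` and vanish at `0`; moreover one can take `h_{c-1} = 0`. -/
theorem result (d c : ℕ) (hc : 2 ≤ c) (hd : c < d) (h : ℂ × ℂ → ℂ) (hh : HoloAt h 0)
    (_h0 : h 0 = 0) :
    ∃ b : ℕ → ℂ → ℂ, (∀ j, HoloAt (b j) 0 ∧ b j 0 = 0) ∧ b (c - 1) = (fun _ => 0) ∧
      AnalyticallyConjugate (skewGerm d c h) (normalForm d c b) := by
  obtain ⟨m, rfl⟩ : ∃ m, c = m + 1 := ⟨c - 1, by omega⟩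
  obtain ⟨e, rfl⟩ : ∃ e, d = e + 2 := ⟨d - 2, by omega⟩
  have hm : 1 ≤ m := by omega
  -- a small polydisc
  obtain ⟨R, hR, hRh⟩ := Metric.eventually_nhds_iff_ball.1 hh
  have hcont : ContinuousAt h 0 := (hRh 0 (mem_ball_self hR)).continuousAt
  have hbd : ∀ᶠ q in 𝓝 (0 : ℂ × ℂ), ‖h q‖ < ‖h 0‖ + 1 :=
    hcont.norm.eventually_lt continuousAt_const (by simp)
  obtain ⟨R', hR', hRb⟩ := Metric.eventually_nhds_iff_ball.1 hbd
  obtain ⟨ρ, hρdef⟩ : ∃ ρ : ℝ, ρ = min (1 / 2) (min R R') := ⟨_, rfl⟩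
  have hρ0 : 0 < ρ := by rw [hρdef]; exact lt_min (by norm_num) (lt_min hR hR')
  have hρ1 : ρ ≤ 1 / 2 := by rw [hρdef]; exact min_le_left _ _
  have hρR : ρ ≤ R := by rw [hρdef]; exact (min_le_right _ _).trans (min_le_left _ _)
  have hρR' : ρ ≤ R' := by rw [hρdef]; exact (min_le_right _ _).trans (min_le_right _ _)
  have hsub : ∀ r s : ℝ, r ≤ ρ → s ≤ ρ → ∀ t : ℝ, ρ ≤ t →
      ball (0 : ℂ) r ×ˢ ball (0 : ℂ) s ⊆ ball (0 : ℂ × ℂ) t := by
    rintro r s hr hs t ht ⟨z, w⟩ ⟨hz, hw⟩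
    rw [mem_ball_zero_iff] at hz hw ⊢
    rw [Prod.norm_def, max_lt_iff]
    exact ⟨by simp only at hz ⊢; linarith, by simp only at hw ⊢; linarith⟩
  obtain ⟨r, hr0, hrρ, G, hG, hmap, hfix⟩ := solve m e hm h (H := ‖h 0‖ + 1) hρ0 hρ1
    (fun q hq => (hRh q (hsub ρ ρ le_rfl le_rfl R hρR hq)).differentiableWithinAt)
    (fun q hq => (hRb q (hsub ρ ρ le_rfl le_rfl R' hρR' hq)).le)
  set D : Set (ℂ × ℂ) := ball (0 : ℂ) r ×ˢ ball (0 : ℂ) ρ with hDdef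
  have hDo : IsOpen D := isOpen_ball.prod isOpen_ball
  have h0D : (0 : ℂ × ℂ) ∈ D := ⟨mem_ball_self hr0, mem_ball_self hρ0⟩
  have hDn : D ∈ 𝓝 (0 : ℂ × ℂ) := hDo.mem_nhds h0D
  have hph : DifferentiableOn ℂ (ph m G) D := by
    have h1 : ph m G = fun q => (S^[m] G) q * ((m : ℂ) + 1)⁻¹ := by
      ext q; unfold ph; rw [div_eq_mul_inv]
    rw [h1]
    exact (iter_diff hG m).mul_const _
  let b : ℕ → ℂ → ℂ := fun j z => if j < m then z * (S^[j] G) (z, 0) else 0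
  refine ⟨b, ?_, ?_, ?_⟩
  · intro j
    by_cases hj : j < m
    · constructor
      · have hnb : ball (0 : ℂ) r ∈ 𝓝 (0 : ℂ) := ball_mem_nhds 0 hr0
        filter_upwards [hnb] with z hz
        have hm0 : (z, (0 : ℂ)) ∈ D := ⟨hz, mem_ball_self hρ0⟩
        have h1 : DifferentiableAt ℂ (S^[j] G) (z, 0) :=
          (iter_diff hG j _ hm0).differentiableAt (hDo.mem_nhds hm0)
        have h2 : DifferentiableAt ℂ (fun z : ℂ => (z, (0 : ℂ))) z := by fun_prop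
        have h3 : DifferentiableAt ℂ (fun z : ℂ => (S^[j] G) (z, 0)) z :=
          DifferentiableAt.comp z (f := fun z : ℂ => (z, (0 : ℂ))) h1 h2
        have h4 : b j = fun z => z * (S^[j] G) (z, 0) := by
          ext z; simp only [b, if_pos hj]
        rw [h4]
        exact differentiableAt_id.mul h3
      · simp [b, hj]
    · have h4 : b j = fun _ => 0 := by
        ext z; simp only [b, if_neg hj]
      rw [h4]
      exact ⟨Eventually.of_forall fun z => differentiableAt_const _, rfl⟩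
  · ext z
    simp [b]
  · obtain ⟨Ψ, hΨ1, hΨ2, hΨ3, hΨ4⟩ := chg_inverse (ph m G) hDo h0D hph
    refine ⟨chg (ph m G), Ψ, ?_, hΨ1, by simp [chg], hΨ2, hΨ3, hΨ4, ?_⟩
    · filter_upwards [hDn] with q hq
      have h1 : DifferentiableAt ℂ (ph m G) q := (hph q hq).differentiableAt (hDo.mem_nhds hq)
      unfold chg
      fun_prop
    · filter_upwards [hDn] with q hq
      obtain ⟨z, w⟩ := q
      have key := conj_eq m e h G z w (hfix _ hq)
      have hsum : ∑ j ∈ Finset.range (m + 1), b j z * (w + z * ph m G (z, w)) ^ j =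
          ∑ j : Fin m, z * co m G z j * (w + z * ph m G (z, w)) ^ (j : ℕ) := by
        rw [Finset.sum_range_succ]
        have h1 : b m z = 0 := by simp [b]
        rw [h1, zero_mul, add_zero, Finset.sum_range]
        refine Finset.sum_congr rfl fun j _ => ?_
        simp only [b, if_pos j.2, co]
      show ((z ^ (e + 2), (w ^ (m + 1) + z * h (z, w)) +
          z ^ (e + 2) * ph m G (z ^ (e + 2), w ^ (m + 1) + z * h (z, w))) : ℂ × ℂ) =
        (z ^ (e + 2), (w + z * ph m G (z, w)) ^ (m + 1) +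
          ∑ j ∈ Finset.range (m + 1), b j z * (w + z * ph m G (z, w)) ^ j)
      rw [hsum, key]

end Pool.Agent.Results.MP_8db26a_an.AnalyticNormalForm
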